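import Mathlib

/-!
# Local points of `y² = x (x - A) (x - B)` at primes not dividing `A - B` (job LS-LOCA)
-/

set_option autoImplicit false

namespace Pool.Agent.TH841.LS.LOCA0

open Finset

section chi

variable {p : ℕ} [hp : Fact p.Prime]

theorem ringChar_ne (h2 : p ≠ 2) : ringChar (ZMod p) ≠ 2 := by rwa [ZMod.ringChar_zmod_n]

theorem sum_mul (h2 : p ≠ 2) {c : ZMod p} (hc : c ≠ 0) :
    ∑ x : ZMod p, quadraticChar (ZMod p) (x * (x - c)) = -1 := by
  have hF := ringChar_ne (p := p) h2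
  have hJ := jacobiSum_nontrivial_inv (quadraticChar_ne_one hF)
  rw [(quadraticChar_isQuadratic (F := ZMod p)).inv] at hJ
  have e : ∑ x : ZMod p, quadraticChar (ZMod p) (x * (x - c)) = quadraticChar (ZMod p) (-1) *
      ∑ y : ZMod p, quadraticChar (ZMod p) y * quadraticChar (ZMod p) (1 - y) := by
    rw [Finset.mul_sum]
    refine Fintype.sum_equiv (Equiv.mulLeft₀ c⁻¹ (inv_ne_zero hc)) _ _ fun x => ?_
    have hm : (Equiv.mulLeft₀ c⁻¹ (inv_ne_zero hc)) x = c⁻¹ * x := rfl
    rw [hm, ← map_mul, ← map_mul]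
    have h : x * (x - c) = c ^ 2 * (-1 * (c⁻¹ * x * (1 - c⁻¹ * x))) := by
      field_simp
      ring
    rw [h, map_mul, quadraticChar_sq_one' hc, one_mul]
  have h1 : quadraticChar (ZMod p) (-1) * quadraticChar (ZMod p) (-1) = 1 := by
    rw [← map_mul]
    simp
  rw [e]
  unfold jacobiSum at hJ
  rw [hJ]
  linear_combination -h1

theorem exists_x (h2 : p ≠ 2) {a b : ZMod p} (hab : a ≠ b) : ∃ x : ZMod p,
    quadraticChar (ZMod p) x = -1 ∧
      (quadraticChar (ZMod p) (x * (x - a) * (x - b)) = 1 ∨ x = a ∨ x = b) := by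
  by_contra hcon
  push Not at hcon
  have hF := ringChar_ne (p := p) h2
  have key : ∀ x : ZMod p, 0 ≤ quadraticChar (ZMod p) ((x - a) * (x - b)) +
      quadraticChar (ZMod p) x := by
    intro x
    by_cases hx : x = 0
    · subst hx
      have ha : 0 ≤ quadraticChar (ZMod p) a := by
        by_cases h0 : a = 0
        · rw [h0, quadraticChar_zero]
        · rcases quadraticChar_dichotomy h0 with h | h
          · rw [h]; norm_num
          · exact absurd rfl (hcon a h).2.1
      have hb : 0 ≤ quadraticChar (ZMod p) b := by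
        by_cases h0 : b = 0
        · rw [h0, quadraticChar_zero]
        · rcases quadraticChar_dichotomy h0 with h | h
          · rw [h]; norm_num
          · exact absurd rfl (hcon b h).2.2
      have e : (0 - a) * (0 - b) = a * b := by ring
      rw [e, map_mul, quadraticChar_zero, add_zero]
      exact mul_nonneg ha hb
    · rcases quadraticChar_dichotomy hx with h | h
      · rw [h]
        by_cases h0 : (x - a) * (x - b) = 0
        · rw [h0, quadraticChar_zero]; norm_num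
        · rcases quadraticChar_dichotomy h0 with h' | h' <;> rw [h'] <;> norm_num
      · obtain ⟨c1, c2, c3⟩ := hcon x h
        have h0 : (x - a) * (x - b) ≠ 0 := mul_ne_zero (sub_ne_zero.2 c2) (sub_ne_zero.2 c3)
        rcases quadraticChar_dichotomy h0 with h' | h'
        · rw [h, h']; norm_num
        · exfalso
          apply c1
          rw [mul_assoc, map_mul, h, h']
          norm_num
  have hsum : ∑ x : ZMod p, (quadraticChar (ZMod p) ((x - a) * (x - b)) +
      quadraticChar (ZMod p) x) = -1 := by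
    rw [Finset.sum_add_distrib, quadraticChar_sum_zero hF, add_zero,
      ← sum_mul (p := p) h2 (c := b - a) (sub_ne_zero.2 (Ne.symm hab))]
    refine Fintype.sum_equiv (Equiv.subRight a) _ _ fun x => ?_
    simp only [Equiv.subRight_apply]
    congr 1
    ring
  have := Finset.sum_nonneg (fun x (_ : x ∈ (Finset.univ : Finset (ZMod p))) => key x)
  rw [hsum] at this
  norm_num at this

open Polynomial in
theorem sq_of_char (h2 : p ≠ 2) {u : ℤ_[p]}
    (h : quadraticChar (ZMod p) (PadicInt.toZMod u) = 1) : IsSquare u := by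
  have hu0 : PadicInt.toZMod u ≠ 0 := by
    intro h0
    rw [h0, quadraticChar_zero] at h
    norm_num at h
  obtain ⟨y, hy⟩ := (quadraticChar_one_iff_isSquare hu0).1 h
  have hy0 : y ≠ 0 := by
    rintro rfl
    apply hu0
    rw [hy, mul_zero]
  have hlt : ∀ z : ℤ_[p], PadicInt.toZMod z = 0 → ‖z‖ < 1 := by
    intro z hz
    have : z ∈ RingHom.ker (PadicInt.toZMod : ℤ_[p] →+* ZMod p) := hz
    rw [PadicInt.ker_toZMod, IsLocalRing.mem_maximalIdeal] at this
    exact PadicInt.mem_nonunits.1 this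
  have heq : ∀ z : ℤ_[p], PadicInt.toZMod z ≠ 0 → ‖z‖ = 1 := by
    intro z hz
    by_contra hne
    have hlt' : ‖z‖ < 1 := lt_of_le_of_ne (PadicInt.norm_le_one z) hne
    apply hz
    have : z ∈ RingHom.ker (PadicInt.toZMod : ℤ_[p] →+* ZMod p) := by
      rw [PadicInt.ker_toZMod, IsLocalRing.mem_maximalIdeal]
      exact PadicInt.mem_nonunits.2 hlt'
    exact this
  have h2z : (2 : ZMod p) ≠ 0 := by
    intro h0
    have : ((2 : ℕ) : ZMod p) = 0 := by exact_mod_cast h0
    rw [ZMod.natCast_eq_zero_iff] at this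
    exact h2 ((Nat.prime_dvd_prime_iff_eq hp.out Nat.prime_two).1 this)
  set a0 : ℤ_[p] := ((y.val : ℕ) : ℤ_[p]) with ha0
  have hya : PadicInt.toZMod a0 = y := by
    rw [ha0, map_natCast, ZMod.natCast_zmod_val]
  have e1 : Polynomial.aeval a0 (X ^ 2 - C u : ℤ_[p][X]) = a0 ^ 2 - u := by simp
  have e2 : Polynomial.aeval a0 (derivative (X ^ 2 - C u : ℤ_[p][X])) = 2 * a0 := by
    rw [derivative_sub, derivative_C, sub_zero, derivative_X_pow]
    simp
  have n1 : ‖a0 ^ 2 - u‖ < 1 := by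
    apply hlt
    rw [map_sub, map_pow, hya, hy]
    ring
  have n2 : ‖2 * a0‖ = 1 := by
    apply heq
    rw [map_mul, hya, map_ofNat]
    exact mul_ne_zero h2z hy0
  obtain ⟨z, hz, -⟩ := hensels_lemma (F := (X ^ 2 - C u : ℤ_[p][X])) (a := a0) (by
    rw [e1, e2, n2]
    simpa using n1)
  refine ⟨z, ?_⟩
  have e3 : Polynomial.aeval z (X ^ 2 - C u : ℤ_[p][X]) = z ^ 2 - u := by simp
  rw [e3] at hz
  linear_combination -hz

end chi

theorem aux (p : ℕ) [hp : Fact p.Prime] (A B d : ℤ) (h2 : p ≠ 2) (hA : A ≠ 0) (hB : B ≠ 0)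
    (hAB : ¬ (p : ℤ) ∣ A - B) (hd : ¬ (p : ℤ) ∣ d) :
    ∃ X Y r : ℚ_[p], X ≠ 0 ∧ Y ^ 2 = X * (X - (A : ℚ_[p])) * (X - (B : ℚ_[p])) ∧
      X = (d : ℚ_[p]) * r ^ 2 := by
  have hdz : (d : ZMod p) ≠ 0 := by
    intro h
    exact hd ((ZMod.intCast_zmod_eq_zero_iff_dvd d p).1 h)
  have hd0 : (d : ℚ_[p]) ≠ 0 := by
    have : d ≠ 0 := by rintro rfl; exact hd (dvd_zero _)
    exact_mod_cast this
  have hp0 : (p : ℚ_[p]) ≠ 0 := by exact_mod_cast hp.out.ne_zero
  have hA0 : (A : ℚ_[p]) ≠ 0 := by exact_mod_cast hA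
  have hB0 : (B : ℚ_[p]) ≠ 0 := by exact_mod_cast hB
  -- squares of p-adic integers
  have sq : ∀ u : ℤ_[p], quadraticChar (ZMod p) (PadicInt.toZMod u) = 1 →
      ∃ v : ℚ_[p], (u : ℚ_[p]) = v ^ 2 := by
    intro u hu
    obtain ⟨v, hv⟩ := sq_of_char h2 hu
    exact ⟨v, by rw [hv]; push_cast; ring⟩
  rcases quadraticChar_dichotomy hdz with hd1 | hd1
  · -- `d` is a square
    obtain ⟨s, hs⟩ := sq (d : ℤ_[p]) (by rw [map_intCast]; exact hd1)
    obtain ⟨u, hu⟩ := sq (1 - (A : ℤ_[p]) * (p : ℤ_[p]) ^ 2) (by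
      rw [map_sub, map_mul, map_pow, map_natCast, map_one, ZMod.natCast_self]; simp)
    obtain ⟨v, hv⟩ := sq (1 - (B : ℤ_[p]) * (p : ℤ_[p]) ^ 2) (by
      rw [map_sub, map_mul, map_pow, map_natCast, map_one, ZMod.natCast_self]; simp)
    push_cast at hs hu hv
    have hs0 : s ≠ 0 := by
      rintro rfl
      apply hd0
      rw [hs]; ring
    refine ⟨1 / (p : ℚ_[p]) ^ 2, u * v / (p : ℚ_[p]) ^ 3, 1 / (p * s), ?_, ?_, ?_⟩
    · exact div_ne_zero one_ne_zero (pow_ne_zero 2 hp0)
    · have hA' : 1 / (p : ℚ_[p]) ^ 2 - A = u ^ 2 / (p : ℚ_[p]) ^ 2 := by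
        rw [← hu]; field_simp
      have hB' : 1 / (p : ℚ_[p]) ^ 2 - B = v ^ 2 / (p : ℚ_[p]) ^ 2 := by
        rw [← hv]; field_simp
      rw [hA', hB']
      field_simp
    · rw [hs]
      field_simp
  · -- `d` is not a square
    have hab : (A : ZMod p) ≠ (B : ZMod p) := by
      intro h
      apply hAB
      rw [← ZMod.intCast_zmod_eq_zero_iff_dvd]
      push_cast
      rw [h, sub_self]
    obtain ⟨x, hx, hx'⟩ := exists_x h2 hab
    -- `X = d r²` from the residues
    have key : ∀ u : ℤ_[p], quadraticChar (ZMod p) (PadicInt.toZMod u) = -1 →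
        ∃ r : ℚ_[p], (u : ℚ_[p]) = (d : ℚ_[p]) * r ^ 2 := by
      intro u hu
      obtain ⟨s, hs⟩ := sq (u * (d : ℤ_[p])) (by
        rw [map_mul, map_intCast, map_mul, hu, hd1]; norm_num)
      refine ⟨s / d, ?_⟩
      push_cast at hs
      field_simp
      linear_combination hs
    rcases hx' with h | h | h
    · set x0 : ℤ_[p] := ((x.val : ℕ) : ℤ_[p]) with hx0
      have hxx : PadicInt.toZMod x0 = x := by
        rw [hx0, map_natCast, ZMod.natCast_zmod_val]
      obtain ⟨r, hr⟩ := key x0 (by rw [hxx]; exact hx)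
      obtain ⟨Y, hY⟩ := sq (x0 * (x0 - (A : ℤ_[p])) * (x0 - (B : ℤ_[p]))) (by
        have e : PadicInt.toZMod (x0 * (x0 - (A : ℤ_[p])) * (x0 - (B : ℤ_[p]))) =
            x * (x - (A : ZMod p)) * (x - (B : ZMod p)) := by
          rw [map_mul, map_mul, map_sub, map_sub, map_intCast, map_intCast, hxx]
        rw [e]; exact h)
      refine ⟨(x0 : ℚ_[p]), Y, r, ?_, ?_, hr⟩
      · intro h0
        have h0' : x0 = 0 := Subtype.ext h0
        rw [h0', map_zero] at hxx
        rw [← hxx, quadraticChar_zero] at hx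
        norm_num at hx
      · rw [← hY]
        push_cast
        ring
    · subst h
      obtain ⟨r, hr⟩ := key (A : ℤ_[p]) (by rw [map_intCast]; exact hx)
      push_cast at hr
      exact ⟨A, 0, r, hA0, by ring, hr⟩
    · subst h
      obtain ⟨r, hr⟩ := key (B : ℤ_[p]) (by rw [map_intCast]; exact hx)
      push_cast at hr
      exact ⟨B, 0, r, hB0, by ring, hr⟩

end Pool.Agent.TH841.LS.LOCA0
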